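import Pool.Agent.Lib.VR82.F

namespace Pool.Agent.Results.MP_47f674_lc.SigmaOneComplete

open Pool.Agent.Lib.MP_47f674_lc

/-- The set of Goedel numbers of the formulas `A` such that `L_A` admits every rule admissible
in IPC is Sigma-one complete: it is recursively enumerable, and every recursively enumerable set
of natural numbers is many-one reducible to it. -/
theorem result :
    REPred (fun c : ℕ => ∃ A : Fm, A.code = c ∧
      ∀ (Γ : List Fm) (B : Fm), Admissible IPC Γ B → Admissible (Logic A) Γ B) ∧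
    ∀ Q : ℕ → Prop, REPred Q → ManyOneReducible Q (fun c : ℕ => ∃ A : Fm, A.code = c ∧
      ∀ (Γ : List Fm) (B : Fm), Admissible IPC Γ B → Admissible (Logic A) Γ B) := by
  refine ⟨Pool.Agent.Lib.VR82.av_re, fun Q hQ => ?_⟩
  obtain ⟨f, hf, h⟩ := Pool.Agent.Lib.VR82.av_hard Q hQ
  refine ⟨fun n => (f n).code, hf.to_comp, fun n => (h n).trans ⟨fun H => ⟨f n, rfl, H⟩, ?_⟩⟩
  rintro ⟨A, hA, H⟩
  rwa [Pool.Agent.Lib.VR82.code_inj hA] at H

end Pool.Agent.Results.MP_47f674_lc.SigmaOneComplete
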